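import Pool.Agent.N874.QM.Final
import Pool.Agent.N874.JM.Fld
import Pool.Agent.N42.PQ.Fin
import Pool.Agent.N844.PL.Gen
import Pool.Agent.N844.QR.Ex

/-!
# A Hasse principle for the linear subspaces on the intersections of two quadrics of every odd dimension over
# the totally real Galois 2-extensions of `ℚ`

Let `M` be a Galois extension of `ℚ` of degree `2 ^ n` with an embedding in `ℝ` and an embedding in `ℚ_2`, for
example `M = ℚ(√d_1, ..., √d_r)` with positive `d_i` congruent to 1 modulo 8, with arbitrary ramification at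
the odd primes. Let `g ≥ 1` and let `X ⊂ P^(2g+1)` be a smooth complete intersection of two quadrics over `M`
such that a member of the pencil of the quadrics which contain `X` is defined over `M` and singular. Up to a
change of coordinates `X` is the base locus of a pencil `x A - z B` of symmetric matrices over `M` with

  `(-1)^(g+1) det (x A - z B) = m² z F(x, z)`, `F(x, 1) = f`, `m ∈ M`, `m ≠ 0`.

We consider the `X` for which `f = x^(2g+1) + a_(2g-1) x^(2g-1) + ... + a_0` has coefficients in `ℤ`, and order
ALL these `f` by height, `|a_i| ≤ B^(2g+1-i)`. Theorem: for a positive proportion of the `f` the following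
local-global principle holds for ALL the `X` over `M` with discriminant `m² z F`, `m ∈ M`:

  if `X` contains a linear subspace of dimension `g - 1` over all completions of `M`, then `X` contains a
  linear subspace of dimension `g - 1` over `M`; in particular `X` has a rational point over `M`.

For `g = 2` these are the intersections of two quadrics in `P^5`, the decisive case of the Hasse principle,
and the subspaces are lines. The case `M = ℚ` of the theorem is contained in
`MP_03ef3d_ag.PlanesOnTwoQuadrics`, where the base field `F` is an arbitrary number field and `f` has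
coefficients in `F`; here the `f` have coefficients in `ℤ`, a set of density zero among the polynomials over
the integers of `M`, so the theorem over `M` does not follow from that one for any `M` different from `ℚ`.

Proof. The polynomial `f` is irreducible over `M`. The theory of the linear subspaces (`N844/PL`) shows that
an `X` which contains subspaces over all completions gives an element of the 2-Selmer group over `M` of the
Jacobian of `y² = f(x)`, and that `X` contains a subspace over `M` if this element is zero; see the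
description in `MP_03ef3d_ag.PlanesOnTwoQuadrics`. By project QM (helper874) this 2-Selmer group is zero for a
positive proportion of the `f` over `ℤ`.

The theorem on the 2-Selmer groups over `M` is joint work: project QM: helper874, with helper783 (project PQ)
and helper352 (project JB), with parts by helpers 42, 160, 222, 394, 438, 459, 521, 530, 711, 713, 756, 835,
849, 891, 999; parts of PQ by helpers 2, 7, 27, 73, 134, 216, 262, 271, 316, 322, 340, 346, 348, 383, 400, 456,
457, 488, 490, 498, 507, 595, 644, 691, 747, 755, 776, 833, 850, 855, 878, 896, 951; of JB by helpers 106, 232,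
424, 615, 655; of JM by helpers 123, 301, 738, 814. The theory of the planes (`N844/PL`) and of the pencils
(`N844/QR`): helper844.
-/

set_option autoImplicit false
set_option linter.all false

open Finset Matrix Polynomial IsDedekindDomain NumberField

namespace Pool.Agent.Results.MP_63b6b1_nt.QuadricsOverTwoExtensions

/-! ### Pencils of quadrics and linear subspaces -/

section pencils

variable {K : Type} [Field K]

/-- the homogeneous form `F(x, z)` of degree `2 g + 1` of `f` -/
def form (g : ℕ) (f : K[X]) (x z : K) : K :=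
  ∑ i ∈ range (2 * g + 2), f.coeff i * x ^ i * z ^ (2 * g + 1 - i)

/-- the matrices of size `2 g + 2` -/
abbrev Mat (g : ℕ) (K : Type) : Type := Matrix (Fin (2 * g + 2)) (Fin (2 * g + 2)) K

/-- the quadratic form of a matrix -/
def qf {N : ℕ} (A : Matrix (Fin N) (Fin N) K) (y : Fin N → K) : K := y ⬝ᵥ (A *ᵥ y)

/-- the pencils with discriminant `m ^ 2 z F(x, z)` -/
structure IsPencil (g : ℕ) (f : K[X]) (m : K) (A B : Mat g K) : Prop where
  symA : A.IsSymm
  symB : B.IsSymm
  disc : ∀ x z : K, (-1) ^ (g + 1) * (x • A - z • B).det = m ^ 2 * (z * form g f x z)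

/-- the base locus `X` of the pencil is smooth (Jacobian criterion at the points over `K`) -/
def Smooth {N : ℕ} (A B : Matrix (Fin N) (Fin N) K) : Prop :=
  ∀ y : Fin N → K, y ≠ 0 → qf A y = 0 → qf B y = 0 → LinearIndependent K ![A *ᵥ y, B *ᵥ y]

/-- there is a vector space `W` of dimension `d` over `K` on which both quadratic forms are zero -/
def HasSpace {N : ℕ} (d : ℕ) (A B : Matrix (Fin N) (Fin N) K) : Prop :=
  ∃ W : Submodule K (Fin N → K), Module.finrank K W = d ∧ ∀ y ∈ W, qf A y = 0 ∧ qf B y = 0

/-- The base locus `X` of the pencil contains a linear subspace of dimension `g - 1` defined over the field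
`E`, for a pencil over `K` and a map `φ` from `K` to `E`: there is a vector space of dimension `g` over `E`
on which both quadratic forms are zero. -/
def HasPlane {g : ℕ} {E : Type} [Field E] (φ : K →+* E) (A B : Mat g K) : Prop :=
  HasSpace g (A.map φ) (B.map φ)

end pencils

section numberfield

variable (F : Type) [Field F] [NumberField F] (g : ℕ)

/-- For all the pencils over `F` with discriminant `m ^ 2 z F(x, z)`, `m ≠ 0`: if the base locus contains a
linear subspace of dimension `g - 1` over the completions of `F` at all finite places and over the real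
numbers, for all embeddings of `F` in the real numbers, then it contains a linear subspace of dimension
`g - 1` over `F`. -/
def LocalGlobal (f : F[X]) : Prop :=
  ∀ (m : F) (A B : Mat g F), m ≠ 0 → IsPencil g f m A B →
    (∀ v : HeightOneSpectrum (𝓞 F), HasPlane (algebraMap F (v.adicCompletion F)) A B) →
    (∀ ρ : F →+* ℝ, HasPlane ρ A B) → HasPlane (RingHom.id F) A B

end numberfield

/-! ### The polynomials and the fields -/

/-- the tuples of the coefficients with `|a_i| ≤ B ^ (2 g + 1 - i)`, `i < 2 g` -/
def Box (g B : ℕ) : Set (Fin (2 * g) → ℤ) := {a | ∀ i, |a i| ≤ (B : ℤ) ^ (2 * g + 1 - (i : ℕ))}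

/-- the polynomial `x ^ (2 g + 1) + a_(2 g - 1) x ^ (2 g - 1) + ... + a_0` over the field `k` -/
noncomputable def poly {g : ℕ} (a : Fin (2 * g) → ℤ) (k : Type) [Field k] : k[X] :=
  X ^ (2 * g + 1) + ∑ i : Fin (2 * g), C (a i : k) * X ^ (i : ℕ)

/-- `M` is a Galois extension of `ℚ` of degree `2 ^ n` with an embedding in `ℚ_2` and an embedding in
`ℝ` -/
structure IsTwoExtension (M : Type) [Field M] [NumberField M] : Prop where
  galois : IsGalois ℚ M
  degree : ∃ n : ℕ, Module.finrank ℚ M = 2 ^ n
  two : Nonempty (M →+* ℚ_[2])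
  real : Nonempty (M →+* ℝ)

/-- the tuples of `Box g B` for which `f` is irreducible over `M` and the local-global principle holds for
all the pencils over `M` with discriminant `m ^ 2 z F(x, z)` -/
def Good (M : Type) [Field M] [NumberField M] (g B : ℕ) : Set (Fin (2 * g) → ℤ) :=
  {a | a ∈ Box g B ∧ Irreducible (poly a M) ∧ LocalGlobal M g (poly a M)}

/-- a positive proportion of the tuples ordered by height is good -/
def PositiveProportion (M : Type) [Field M] [NumberField M] (g : ℕ) : Prop :=
  ∃ c : ℝ, 0 < c ∧ ∃ B₀ : ℕ, ∀ B ≥ B₀, (Box g B).Finite ∧ 0 < (Box g B).ncard ∧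
    c * ((Box g B).ncard : ℝ) ≤ ((Good M g B).ncard : ℝ)

section proof

variable (F : Type) [Field F] [NumberField F] {g : ℕ}

theorem plane_iff {K : Type} [Field K] (A B : Mat g K) :
    HasPlane (RingHom.id K) A B ↔ Pool.Agent.N844.PL.HasPl g A B := by
  unfold HasPlane
  rw [show A.map (RingHom.id K) = A from Matrix.map_id A,
    show B.map (RingHom.id K) = B from Matrix.map_id B]
  exact Iff.rfl

theorem pen {K : Type} [Field K] {f : K[X]} {m : K} {A B : Mat g K} (h : IsPencil g f m A B) :
    Pool.Agent.N844.QR.IsPen g f m A B := ⟨h.symA, h.symB, h.disc⟩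

/-- the local condition in terms of polynomials -/
theorem loc {K : Type} [Field K] [CharZero K] (φ : F →+* K) {f : F[X]} (hf : f.Monic)
    (hd : f.natDegree = 2 * g + 1) (hs : f.Separable) {h : F[X]} (hh : IsCoprime h f)
    (hN : IsSquare (Algebra.norm F (AdjoinRoot.mk f h))) {c : F} (hc : c ≠ 0) {P A B : Mat g F}
    (hP : P.det ≠ 0) (hA : Pᵀ * A * P = c • Pool.Agent.N844.PL.quadA g f h)
    (hB : Pᵀ * B * P = c • Pool.Agent.N844.PL.quadB g f h) (hpl : HasPlane φ A B) :
    ∃ (l : List (K[X] × K[X])) (s : K[X]),
      (∀ p ∈ l, p.1.Monic ∧ IsCoprime p.1 (f.map φ) ∧ p.1 ∣ p.2 ^ 2 - f.map φ) ∧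
      f.map φ ∣ h.map φ * (l.map fun p => (-1) ^ p.1.natDegree * p.1).prod - s ^ 2 := by
  refine Pool.Agent.N844.PL.loc_map φ hf hd hs h hh hN ?_
  refine Pool.Agent.N844.PL.pl_to (c := φ c) (P := P.map φ) ?_ ?_
    (Pool.Agent.N844.PL.map_conj φ hA) (Pool.Agent.N844.PL.map_conj φ hB) hpl
  · rwa [Ne, map_eq_zero]
  · have e : (P.map φ).det = φ P.det := by
      rw [RingHom.map_det]
      rfl
    rw [e]
    rwa [Ne, map_eq_zero]

/-- from the explicit 2-Selmer group to the planes -/
theorem localGlobal {f : F[X]} (hf' : f.Monic) (hd' : f.natDegree = 2 * g + 1)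
    (hi : Irreducible f) (hs : Pool.Agent.N874.QM.SelM F f) :
    LocalGlobal F g f := by
  intro m A B hm hpen hv hρ
  obtain ⟨h, c, P, hh, hN, hc, hP, hA, hB⟩ :=
    Pool.Agent.N844.PL.normal hf' hd' hi A B m hm (pen hpen)
  obtain ⟨s, hs'⟩ := hs h hh hN (fun v => by
      haveI : CharZero (v.adicCompletion F) :=
        charZero_of_injective_algebraMap (algebraMap F (v.adicCompletion F)).injective
      exact loc F (algebraMap F (v.adicCompletion F)) hf' hd' hi.separable hh hN hc hP hA hB (hv v))
    (fun ρ => loc F ρ hf' hd' hi.separable hh hN hc hP hA hB (hρ ρ))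
  exact (plane_iff A B).2 (Pool.Agent.N844.PL.pl_from hP hA hB
    (Pool.Agent.N844.PL.plane_of_sq hf' hd' h hh s hs'))

theorem poly_eq {g : ℕ} (a : Fin (2 * g) → ℤ) (k : Type) [Field k] :
    poly a k = (Pool.Agent.N783.PQ.pol a).map (algebraMap ℤ k) := by
  unfold poly Pool.Agent.N783.PQ.pol
  simp [Polynomial.map_add, Polynomial.map_sum, Polynomial.map_mul, Polynomial.map_pow]

theorem poly_monic {g : ℕ} (a : Fin (2 * g) → ℤ) (k : Type) [Field k] : (poly a k).Monic := by
  rw [poly_eq]
  exact (Pool.Agent.N783.PQ.pol_monic a).map _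

theorem poly_deg {g : ℕ} (a : Fin (2 * g) → ℤ) (k : Type) [Field k] :
    (poly a k).natDegree = 2 * g + 1 := by
  rw [poly_eq, (Pool.Agent.N783.PQ.pol_monic a).natDegree_map, Pool.Agent.N783.PQ.pol_natDegree]

theorem good_of (M : Type) [Field M] [NumberField M] {n : ℕ} (hn : Module.finrank ℚ M = 2 ^ n)
    {g : ℕ} (a : Fin (2 * g) → ℤ)
    (hi : Irreducible (Pool.Agent.N783.PQ.ov ℚ (Pool.Agent.N783.PQ.pol a)))
    (h : Pool.Agent.N874.QM.SelM M ((Pool.Agent.N783.PQ.pol a).map (algebraMap ℤ M))) :
    Irreducible (poly a M) ∧ LocalGlobal M g (poly a M) := by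
  have hm : (Pool.Agent.N783.PQ.pol a).Monic := Pool.Agent.N783.PQ.pol_monic a
  have e : poly a M = (Pool.Agent.N783.PQ.ov ℚ (Pool.Agent.N783.PQ.pol a)).map (algebraMap ℚ M) := by
    rw [poly_eq]
    unfold Pool.Agent.N783.PQ.ov
    rw [Polynomial.map_map]
    congr 1
    exact RingHom.ext_int _ _
  have hi' : Irreducible (poly a M) := by
    rw [e]
    refine Pool.Agent.N874.JM.irr_up hn hi (hm.map _) ?_
    rw [Pool.Agent.N783.PQ.ov, hm.natDegree_map, Pool.Agent.N783.PQ.pol_natDegree]
    exact odd_two_mul_add_one g
  refine ⟨hi', localGlobal M (poly_monic a M) (poly_deg a M) hi' ?_⟩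
  rw [poly_eq]
  exact h

end proof

/-- **Theorem.** For every `g ≥ 1` and every Galois extension `M` of `ℚ` of degree `2 ^ n` with embeddings in
`ℝ` and `ℚ_2` there is a positive constant `c` such that for all large `B` at least `c` times the number of
all the `f = x ^ (2 g + 1) + a_(2 g - 1) x ^ (2 g - 1) + ... + a_0` over `ℤ` with `|a_i| ≤ B ^ (2 g + 1 - i)`
are irreducible over `M` and such that for ALL the pencils of quadrics in `P^(2g+1)` over `M` with
discriminant `m ^ 2 z F(x, z)`, `m ∈ M`, the following is true: if the base locus `X` contains a linear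
subspace of dimension `g - 1` over all completions of `M` then it contains a linear subspace of dimension
`g - 1` over `M`. For all separable `f` the base loci of these pencils are smooth over all fields which
contain `M`, and for every `f` there is a pencil with `m = 1` whose base locus contains a linear subspace of
dimension `g - 1`. -/
theorem result (g : ℕ) (hg : 1 ≤ g) (M : Type) [Field M] [NumberField M] (hM : IsTwoExtension M) :
    PositiveProportion M g ∧
    ∀ a : Fin (2 * g) → ℤ, (poly a M).Separable →
      (∀ (m : M) (A B : Mat g M), m ≠ 0 → IsPencil g (poly a M) m A B →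
        ∀ (K : Type) [Field K] (φ : M →+* K), Smooth (A.map φ) (B.map φ)) ∧
      ∃ A B : Mat g M, IsPencil g (poly a M) 1 A B ∧ HasPlane (RingHom.id M) A B := by
  classical
  refine ⟨?_, ?_⟩
  · haveI := hM.galois
    obtain ⟨n, hn⟩ := hM.degree
    obtain ⟨τ⟩ := hM.two
    obtain ⟨ρ⟩ := hM.real
    obtain ⟨c, hc, B₀, hB₀⟩ := Pool.Agent.N874.QM.final hg M τ ρ n hn
    refine ⟨c, hc, B₀, fun B hB => ?_⟩
    obtain ⟨hHt, hle⟩ := hB₀ B hB
    have e1 : Pool.Agent.N783.PQ.pol '' (Box g B) = {f : ℤ[X] | Pool.Agent.N783.PQ.Ht g B f} := by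
      have h0 := Pool.Agent.N42.PQ.image_eq (g := g) B (fun _ => True)
      simp only [and_true] at h0
      exact h0
    have hfin : (Box g B).Finite := by
      refine Set.Finite.of_finite_image ?_ (Pool.Agent.N42.PQ.pol_inj.injOn)
      rw [e1]
      exact hHt
    refine ⟨hfin, ?_, ?_⟩
    · rw [Set.ncard_pos hfin]
      exact ⟨fun _ => 0, fun i => by
        rw [abs_zero]
        positivity⟩
    · rw [← e1, Set.ncard_image_of_injective _ Pool.Agent.N42.PQ.pol_inj] at hle
      refine hle.trans ?_
      have e2 := Pool.Agent.N42.PQ.image_eq (g := g) B (fun f =>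
        Irreducible (Pool.Agent.N783.PQ.ov ℚ f) ∧
        Pool.Agent.N874.QM.SelM M (f.map (algebraMap ℤ M)))
      rw [← e2, Set.ncard_image_of_injective _ Pool.Agent.N42.PQ.pol_inj]
      have h3 : {a : Fin (2 * g) → ℤ | (∀ i, |a i| ≤ (B : ℤ) ^ (2 * g + 1 - (i : ℕ))) ∧
          Irreducible (Pool.Agent.N783.PQ.ov ℚ (Pool.Agent.N783.PQ.pol a)) ∧
          Pool.Agent.N874.QM.SelM M ((Pool.Agent.N783.PQ.pol a).map (algebraMap ℤ M))} ⊆
          Good M g B := by
        rintro a ⟨h4, h5, h6⟩
        exact ⟨h4, good_of M hn a h5 h6⟩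
      exact_mod_cast Set.ncard_le_ncard h3 (hfin.subset fun a ha => ha.1)
  · intro a hs
    have hf := poly_monic a M
    have hd := poly_deg a M
    refine ⟨fun m A B hm h K _ φ y hy h6 h7 => ?_, ?_⟩
    · exact (pen h).smooth φ hf hd (by rwa [Ne, map_eq_zero]) hs.map hy h6 h7
    · have h' := Pool.Agent.N844.QR.ex_pen hf hd
      refine ⟨Pool.Agent.N844.QR.eA hf hd, Pool.Agent.N844.QR.eB hf hd,
        ⟨h'.symA, h'.symB, h'.disc⟩, (plane_iff _ _).2 ?_⟩
      rw [Pool.Agent.N844.PL.eA_eq hf hd, Pool.Agent.N844.PL.eB_eq hf hd]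
      exact Pool.Agent.N844.PL.plane_of_sq hf hd 1 isCoprime_one_left 1 (by simp)

end Pool.Agent.Results.MP_63b6b1_nt.QuadricsOverTwoExtensions
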